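import Pool.Agent.U892.PD.Stm

/-! Package LEAF2 of project PD: a conic which contains a compact leaf has a definite quadratic
part. -/

set_option autoImplicit false

open Filter Topology Set
open scoped ContDiff

namespace Pool.Agent.U869.PD

open Pool.Agent.U892.PD

/-- an isotropic direction -/
theorem exists_dir (a b c : ℝ) (h : 4 * a * c ≤ b ^ 2) :
    ∃ v : ℝ × ℝ, v ≠ 0 ∧ a * v.1 ^ 2 + b * (v.1 * v.2) + c * v.2 ^ 2 = 0 := by
  by_cases ha : a = 0
  · exact ⟨(1, 0), by simp, by simp [ha]⟩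
  · refine ⟨(-b + √(b ^ 2 - 4 * a * c), 2 * a), ?_, ?_⟩
    · intro h0
      have := (Prod.ext_iff.1 h0).2
      simp at this
      exact ha this
    · have hs : √(b ^ 2 - 4 * a * c) ^ 2 = b ^ 2 - 4 * a * c := Real.sq_sqrt (by linarith)
      simp only
      linear_combination a * hs

/-- a compact leaf has a tangent in every direction -/
theorem tangent {Ω : Set (ℝ × ℝ)} {F : ℝ × ℝ → ℝ} (hF : Foliation Ω F) {K : Set (ℝ × ℝ)} {c : ℝ}
    (hK : CompactLeaf Ω F K c) (v : ℝ × ℝ) (hv : v ≠ 0) : ∃ p ∈ K, fderiv ℝ F p v = 0 := by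
  let φ : ℝ × ℝ →L[ℝ] ℝ := v.1 • ContinuousLinearMap.snd ℝ ℝ ℝ - v.2 • ContinuousLinearMap.fst ℝ ℝ ℝ
  have hφ : ∀ w, φ w = v.1 * w.2 - v.2 * w.1 := fun w => by simp [φ]
  obtain ⟨p, hp, hmax⟩ := hK.compact.exists_isMaxOn hK.conn.nonempty φ.continuous.continuousOn
  refine ⟨p, hp, ?_⟩
  have hstrict : HasStrictFDerivAt F (fderiv ℝ F p) p :=
    (hF.smooth p (hK.sub hp)).hasStrictFDerivAt (by simp)
  have hext : IsLocalExtrOn φ {x | F x = F p} p := by
    right
    have h1 := hK.isOpen p hp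
    have h2 : ∀ᶠ p' in 𝓝[{x | F x = F p}] p, F p' = c → p' ∈ K := h1.filter_mono nhdsWithin_le_nhds
    filter_upwards [h2, self_mem_nhdsWithin] with p' h3 h4
    have h5 : F p' = c := by rw [← hK.level p hp]; exact h4
    exact hmax (h3 h5)
  obtain ⟨a, b, hab, h⟩ := hext.exists_multipliers_of_hasStrictFDerivAt_1d hstrict
    φ.hasStrictFDerivAt
  have h1 : a * fderiv ℝ F p v = 0 := by
    have := congrArg (fun L : ℝ × ℝ →L[ℝ] ℝ => L v) h
    simp only [ContinuousLinearMap.add_apply, ContinuousLinearMap.smul_apply, hφ, smul_eq_mul,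
      ContinuousLinearMap.zero_apply] at this
    linear_combination this
  rcases mul_eq_zero.1 h1 with ha | ha
  · exfalso
    have hb : b ≠ 0 := by
      intro hb
      exact hab (by rw [ha, hb]; rfl)
    rw [ha, zero_smul, zero_add] at h
    have hφ0 : ∀ w, φ w = 0 := by
      intro w
      have := congrArg (fun L : ℝ × ℝ →L[ℝ] ℝ => L w) h
      simp only [ContinuousLinearMap.smul_apply, smul_eq_mul, ContinuousLinearMap.zero_apply,
        mul_eq_zero] at this
      exact this.resolve_left hb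
    have e1 := hφ0 (0, 1)
    have e2 := hφ0 (1, 0)
    rw [hφ] at e1 e2
    simp at e1 e2
    exact hv (Prod.ext e1 e2)
  · exact ha

/-- near a nondegenerate critical point the value is taken only once -/
theorem strict {f : ℝ → ℝ} (hf : ContDiffAt ℝ 1 f 0) (h1 : deriv f 0 = 0)
    (h2 : iteratedDeriv 2 f 0 ≠ 0) : ∀ᶠ t in 𝓝[>] (0 : ℝ), f t ≠ f 0 := by
  have h3 : deriv (deriv f) 0 ≠ 0 := by
    rw [iteratedDeriv_succ, iteratedDeriv_one] at h2
    exact h2
  have h4 : HasDerivAt (deriv f) (deriv (deriv f) 0) 0 :=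
    (differentiableAt_of_deriv_ne_zero h3).hasDerivAt
  have h5 : ∀ᶠ z in 𝓝[≠] (0 : ℝ), deriv f z ≠ 0 := h4.eventually_ne h3
  have h6 : ∀ᶠ z in 𝓝 (0 : ℝ), DifferentiableAt ℝ f z := by
    have := hf.eventually (by simp)
    filter_upwards [this] with z hz
    exact hz.differentiableAt (by simp)
  have h7 : ∀ᶠ z in 𝓝 (0 : ℝ), DifferentiableAt ℝ f z ∧ (z ≠ 0 → deriv f z ≠ 0) :=
    h6.and (eventually_nhdsWithin_iff.1 h5)
  obtain ⟨δ, hδ, hb⟩ := Metric.eventually_nhds_iff.1 h7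
  have h8 : ∀ᶠ t in 𝓝[>] (0 : ℝ), t < δ := by
    have : Iio δ ∈ 𝓝 (0 : ℝ) := Iio_mem_nhds hδ
    exact nhdsWithin_le_nhds this
  filter_upwards [h8, self_mem_nhdsWithin] with t ht1 ht2 heq
  have ht2' : 0 < t := ht2
  obtain ⟨s, hs, hs'⟩ := exists_deriv_eq_zero (f := f) ht2' (by
    intro x hx
    refine (hb ?_).1.continuousAt.continuousWithinAt
    rw [Real.dist_eq, sub_zero, abs_of_nonneg hx.1]
    exact lt_of_le_of_lt hx.2 ht1) heq.symm
  refine (hb ?_).2 hs.1.ne' hs'
  rw [Real.dist_eq, sub_zero, abs_of_pos hs.1]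
  exact hs.2.trans ht1

/-- points of the level curve near `p`, close to the tangent -/
theorem near {F : ℝ × ℝ → ℝ} {p v n : ℝ × ℝ} (hF : ContDiffAt ℝ 1 F p)
    (hv : fderiv ℝ F p v = 0) (hn : fderiv ℝ F p n = 1) (ε : ℝ) (hε : 0 < ε) :
    ∀ᶠ t in 𝓝[>] (0 : ℝ), ∃ g ∈ Icc (-(ε * t)) (ε * t), F (p + t • v + g • n) = F p := by
  have hd : HasFDerivAt F (fderiv ℝ F p) p := (hF.differentiableAt (by simp)).hasFDerivAt
  have hcont : ∀ᶠ q in 𝓝 p, ContinuousAt F q := by
    filter_upwards [hF.eventually (by simp)] with q hq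
    exact hq.continuousAt
  set C : ℝ := ‖v‖ + ε * ‖n‖ + 1 with hC
  have hCpos : 0 < C := by positivity
  have hη : 0 < ε / (2 * C) := by positivity
  have h1 := hd.isLittleO.def hη
  have h2 : ∀ᶠ q in 𝓝 p, ContinuousAt F q ∧
      ‖F q - F p - fderiv ℝ F p (q - p)‖ ≤ ε / (2 * C) * ‖q - p‖ := hcont.and h1
  obtain ⟨δ, hδ, hb⟩ := Metric.eventually_nhds_iff.1 h2
  have h3 : ∀ᶠ t in 𝓝[>] (0 : ℝ), t < δ / C := by
    have : Iio (δ / C) ∈ 𝓝 (0 : ℝ) := Iio_mem_nhds (by positivity)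
    exact nhdsWithin_le_nhds this
  filter_upwards [h3, self_mem_nhdsWithin] with t ht1 ht2
  have ht : 0 < t := ht2
  have hdist : ∀ g ∈ Icc (-(ε * t)) (ε * t), ‖t • v + g • n‖ < t * C := by
    intro g hg
    have hg' : |g| ≤ ε * t := abs_le.2 hg
    calc ‖t • v + g • n‖ ≤ ‖t • v‖ + ‖g • n‖ := norm_add_le _ _
      _ = t * ‖v‖ + |g| * ‖n‖ := by
        rw [norm_smul, norm_smul, Real.norm_eq_abs, Real.norm_eq_abs, abs_of_pos ht]
      _ ≤ t * ‖v‖ + (ε * t) * ‖n‖ := by gcongr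
      _ < t * C := by
        rw [hC]
        nlinarith
  have hball : ∀ g ∈ Icc (-(ε * t)) (ε * t), dist (p + t • v + g • n) p < δ := by
    intro g hg
    rw [dist_eq_norm]
    have : p + t • v + g • n - p = t • v + g • n := by abel
    rw [this]
    refine (hdist g hg).trans ?_
    rw [lt_div_iff₀ hCpos] at ht1
    exact ht1
  have hval : ∀ g ∈ Icc (-(ε * t)) (ε * t), |F (p + t • v + g • n) - F p - g| < ε * t := by
    intro g hg
    have h4 := (hb (hball g hg)).2
    have e : p + t • v + g • n - p = t • v + g • n := by abel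
    rw [e, map_add, map_smul, map_smul, hv, hn, smul_zero, zero_add, smul_eq_mul, mul_one,
      Real.norm_eq_abs] at h4
    refine h4.trans_lt ?_
    have h5 := hdist g hg
    calc ε / (2 * C) * ‖t • v + g • n‖ ≤ ε / (2 * C) * (t * C) := by gcongr
      _ = ε * t / 2 := by field_simp
      _ < ε * t := by
        have : 0 < ε * t := by positivity
        linarith
  have hεt : 0 < ε * t := by positivity
  have hle : -(ε * t) ≤ ε * t := by linarith
  have hco : ContinuousOn (fun g : ℝ => F (p + t • v + g • n)) (Icc (-(ε * t)) (ε * t)) := by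
    intro g hg
    have h4 := (hb (hball g hg)).1
    have h5 : ContinuousAt (fun g : ℝ => p + t • v + g • n) g := by fun_prop
    exact (ContinuousAt.comp (f := fun g : ℝ => p + t • v + g • n) h4 h5).continuousWithinAt
  have hmem : F p ∈ Icc (F (p + t • v + (-(ε * t)) • n)) (F (p + t • v + (ε * t) • n)) := by
    have h4 := abs_lt.1 (hval _ (left_mem_Icc.2 hle))
    have h5 := abs_lt.1 (hval _ (right_mem_Icc.2 hle))
    constructor <;> linarith [h4.1, h4.2, h5.1, h5.2]
  obtain ⟨g, hg, hg'⟩ := intermediate_value_Icc hle hco hmem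
  exact ⟨g, hg, hg'⟩

/-- the algebra -/
theorem all_zero {α β b d : ℝ} (h : ∀ ε : ℝ, 0 < ε → ∃ t g : ℝ, 0 < t ∧ t < ε ∧ g ≠ 0 ∧
    |g| ≤ ε * t ∧ t * α + g * β + t * g * b + g ^ 2 * d = 0) : α = 0 ∧ β = 0 ∧ b = 0 ∧ d = 0 := by
  choose! t g ht0 htε hg0 hgε heq using h
  -- eventually statements along `ε → 0+`
  have T : Tendsto t (𝓝[>] (0 : ℝ)) (𝓝 0) := by
    refine squeeze_zero' ?_ ?_ (tendsto_id.mono_left nhdsWithin_le_nhds)
    · filter_upwards [self_mem_nhdsWithin] with ε hε using (ht0 ε hε).le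
    · filter_upwards [self_mem_nhdsWithin] with ε hε using (htε ε hε).le
  have Q : Tendsto (fun ε => g ε / t ε) (𝓝[>] (0 : ℝ)) (𝓝 0) := by
    refine squeeze_zero_norm' ?_ (tendsto_id.mono_left nhdsWithin_le_nhds)
    filter_upwards [self_mem_nhdsWithin] with ε hε
    rw [Real.norm_eq_abs, abs_div, abs_of_pos (ht0 ε hε), div_le_iff₀ (ht0 ε hε)]
    exact hgε ε hε
  have G : Tendsto g (𝓝[>] (0 : ℝ)) (𝓝 0) := by
    have := Q.mul T
    rw [mul_zero] at this
    refine this.congr' ?_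
    filter_upwards [self_mem_nhdsWithin] with ε hε
    exact div_mul_cancel₀ _ (ht0 ε hε).ne'
  have hα : α = 0 := by
    have h1 : Tendsto (fun ε => -(g ε / t ε) * (β + t ε * b + g ε * d)) (𝓝[>] (0 : ℝ))
        (𝓝 (-0 * (β + 0 * b + 0 * d))) :=
      Q.neg.mul ((tendsto_const_nhds.add (T.mul_const b)).add (G.mul_const d))
    have h2 : Tendsto (fun _ : ℝ => α) (𝓝[>] (0 : ℝ)) (𝓝 (-0 * (β + 0 * b + 0 * d))) := by
      refine h1.congr' ?_
      filter_upwards [self_mem_nhdsWithin] with ε hε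
      have := ht0 ε hε
      field_simp
      linear_combination -(heq ε hε)
    have := tendsto_nhds_unique tendsto_const_nhds h2
    simpa using this
  have heq2 : ∀ ε, 0 < ε → β + t ε * b + g ε * d = 0 := by
    intro ε hε
    have := heq ε hε
    rw [hα] at this
    have h3 : g ε * (β + t ε * b + g ε * d) = 0 := by linear_combination this
    exact (mul_eq_zero.1 h3).resolve_left (hg0 ε hε)
  have hβ : β = 0 := by
    have h1 : Tendsto (fun ε => β + t ε * b + g ε * d) (𝓝[>] (0 : ℝ))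
        (𝓝 (β + 0 * b + 0 * d)) :=
      (tendsto_const_nhds.add (T.mul_const b)).add (G.mul_const d)
    have h2 : Tendsto (fun _ : ℝ => (0 : ℝ)) (𝓝[>] (0 : ℝ)) (𝓝 (β + 0 * b + 0 * d)) := by
      refine h1.congr' ?_
      filter_upwards [self_mem_nhdsWithin] with ε hε
      exact heq2 ε hε
    have := tendsto_nhds_unique tendsto_const_nhds h2
    simpa using this.symm
  have heq3 : ∀ ε, 0 < ε → b + (g ε / t ε) * d = 0 := by
    intro ε hε
    have := heq2 ε hε
    have h0 := ht0 ε hε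
    rw [hβ] at this
    field_simp
    linear_combination this
  have hb : b = 0 := by
    have h1 : Tendsto (fun ε => b + (g ε / t ε) * d) (𝓝[>] (0 : ℝ)) (𝓝 (b + 0 * d)) :=
      tendsto_const_nhds.add (Q.mul_const d)
    have h2 : Tendsto (fun _ : ℝ => (0 : ℝ)) (𝓝[>] (0 : ℝ)) (𝓝 (b + 0 * d)) := by
      refine h1.congr' ?_
      filter_upwards [self_mem_nhdsWithin] with ε hε
      exact heq3 ε hε
    have := tendsto_nhds_unique tendsto_const_nhds h2
    simpa using this.symm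
  refine ⟨hα, hβ, hb, ?_⟩
  have := heq2 1 one_pos
  rw [hβ, hb] at this
  have h3 : g 1 * d = 0 := by linear_combination this
  exact (mul_eq_zero.1 h3).resolve_left (hg0 1 one_pos)

theorem t_LEAF2 : S_LEAF2 := by
  intro Ω F hF K c hK R hR hq
  by_contra hcon
  push Not at hcon
  obtain ⟨v, hv, hv2⟩ := exists_dir (R 3) (R 4) (R 5) hcon
  obtain ⟨p, hp, hpv⟩ := tangent hF hK v hv
  have hΩ := hK.sub hp
  have hsm : ContDiffAt ℝ 1 F p := (hF.smooth p hΩ).of_le (by simp)
  -- a transversal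
  obtain ⟨n, hn⟩ : ∃ n, fderiv ℝ F p n = 1 := by
    have h0 := hF.regular p hΩ
    have : ∃ m, fderiv ℝ F p m ≠ 0 := by
      by_contra hall
      push Not at hall
      exact h0 (ContinuousLinearMap.ext fun m => by simpa using hall m)
    obtain ⟨m, hm⟩ := this
    exact ⟨(fderiv ℝ F p m)⁻¹ • m, by rw [map_smul, smul_eq_mul, inv_mul_cancel₀ hm]⟩
  have hD : v.1 * n.2 - v.2 * n.1 ≠ 0 := by
    intro h0
    have h1 : v.1 • n = n.1 • v := by
      refine Prod.ext ?_ ?_
      · show v.1 * n.1 = n.1 * v.1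
        ring
      · show v.1 * n.2 = n.1 * v.2
        linear_combination h0
    have h2 : v.2 • n = n.2 • v := by
      refine Prod.ext ?_ ?_
      · show v.2 * n.1 = n.2 * v.1
        linear_combination -h0
      · show v.2 * n.2 = n.2 * v.2
        ring
    have e1 := congrArg (fderiv ℝ F p) h1
    have e2 := congrArg (fderiv ℝ F p) h2
    rw [map_smul, map_smul, hpv, hn] at e1 e2
    simp at e1 e2
    exact hv (Prod.ext e1 e2)
  -- the values on the tangent
  have hst : ∀ᶠ t in 𝓝[>] (0 : ℝ), F (p + t • v) ≠ F p := by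
    have hg : ContDiffAt ℝ 1 (fun s : ℝ => F (p + s • v)) 0 := by
      have h1 : ContDiffAt ℝ 1 (fun s : ℝ => p + s • v) 0 := by fun_prop
      refine ContDiffAt.comp (f := fun s : ℝ => p + s • v) (g := F) 0 ?_ h1
      simpa using hsm
    have hder : deriv (fun s : ℝ => F (p + s • v)) 0 = 0 := by
      have h1 : HasDerivAt (fun s : ℝ => p + s • v) v 0 := by
        have := ((hasDerivAt_id (0 : ℝ)).smul_const v).const_add p
        simpa using this
      have h2 : HasFDerivAt F (fderiv ℝ F p) (p + (0 : ℝ) • v) := by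
        simpa using (hsm.differentiableAt (by simp)).hasFDerivAt
      have h3 := h2.comp_hasDerivAt (0 : ℝ) h1
      rw [hpv] at h3
      exact h3.deriv
    have := strict hg hder (hF.curved p hΩ v hv hpv)
    simpa using this
  have hlev : F p = c := hK.level p hp
  have hopen := hK.isOpen p hp
  obtain ⟨ρ, hρ, hb⟩ := Metric.eventually_nhds_iff.1 hopen
  set α : ℝ := R 1 * v.1 + R 2 * v.2 + 2 * R 3 * p.1 * v.1 + R 4 * (p.1 * v.2 + p.2 * v.1) +
    2 * R 5 * p.2 * v.2 with hα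
  set β : ℝ := R 1 * n.1 + R 2 * n.2 + 2 * R 3 * p.1 * n.1 + R 4 * (p.1 * n.2 + p.2 * n.1) +
    2 * R 5 * p.2 * n.2 with hβ
  set b : ℝ := 2 * R 3 * v.1 * n.1 + R 4 * (v.1 * n.2 + v.2 * n.1) + 2 * R 5 * v.2 * n.2 with hb'
  set d : ℝ := R 3 * n.1 ^ 2 + R 4 * (n.1 * n.2) + R 5 * n.2 ^ 2 with hd
  have hqp := hq p hp
  have key : ∀ ε : ℝ, 0 < ε → ∃ t g : ℝ, 0 < t ∧ t < ε ∧ g ≠ 0 ∧
      |g| ≤ ε * t ∧ t * α + g * β + t * g * b + g ^ 2 * d = 0 := by
    intro ε hε
    have h1 := near hsm hpv hn ε hε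
    set C : ℝ := ‖v‖ + ε * ‖n‖ + 1 with hC
    have hCpos : 0 < C := by positivity
    have h2 : ∀ᶠ t in 𝓝[>] (0 : ℝ), t < ε ∧ t < ρ / C := by
      have e1 : Iio ε ∈ 𝓝 (0 : ℝ) := Iio_mem_nhds hε
      have e2 : Iio (ρ / C) ∈ 𝓝 (0 : ℝ) := Iio_mem_nhds (by positivity)
      exact nhdsWithin_le_nhds (inter_mem e1 e2)
    obtain ⟨t, ⟨g, hg, hg'⟩, hs, ⟨ht1, ht2⟩, ht⟩ :=
      (h1.and (hst.and (h2.and self_mem_nhdsWithin))).exists
    have ht : 0 < t := ht
    have habs : |g| ≤ ε * t := abs_le.2 hg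
    refine ⟨t, g, ht, ht1, ?_, habs, ?_⟩
    · rintro rfl
      rw [zero_smul, add_zero] at hg'
      exact hs hg'
    · have hdist : dist (p + t • v + g • n) p < ρ := by
        rw [dist_eq_norm]
        have : p + t • v + g • n - p = t • v + g • n := by abel
        rw [this]
        rw [lt_div_iff₀ hCpos] at ht2
        refine lt_of_le_of_lt ?_ ht2
        calc ‖t • v + g • n‖ ≤ ‖t • v‖ + ‖g • n‖ := norm_add_le _ _
          _ = t * ‖v‖ + |g| * ‖n‖ := by
            rw [norm_smul, norm_smul, Real.norm_eq_abs, Real.norm_eq_abs, abs_of_pos ht]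
          _ ≤ t * ‖v‖ + (ε * t) * ‖n‖ := by gcongr
          _ ≤ t * C := by
            rw [hC]
            nlinarith
      have hKm : p + t • v + g • n ∈ K := hb hdist (by rw [hg', hlev])
      have h4 := hq _ hKm
      simp only [quad, Prod.fst_add, Prod.snd_add, Prod.smul_fst, Prod.smul_snd, smul_eq_mul] at h4 hqp
      rw [hα, hβ, hb', hd]
      linear_combination h4 - hqp - t ^ 2 * hv2
  obtain ⟨z1, z2, z3, z4⟩ := all_zero key
  rw [hα] at z1
  rw [hβ] at z2
  rw [hb'] at z3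
  rw [hd] at z4
  set D : ℝ := v.1 * n.2 - v.2 * n.1 with hDdef
  have r3 : R 3 = 0 := by
    have : D ^ 2 * R 3 = 0 := by
      rw [hDdef]
      linear_combination n.2 ^ 2 * hv2 - n.2 * v.2 * z3 + v.2 ^ 2 * z4
    exact (mul_eq_zero.1 this).resolve_left (pow_ne_zero 2 hD)
  have r5 : R 5 = 0 := by
    have : D ^ 2 * R 5 = 0 := by
      rw [hDdef]
      linear_combination n.1 ^ 2 * hv2 - n.1 * v.1 * z3 + v.1 ^ 2 * z4
    exact (mul_eq_zero.1 this).resolve_left (pow_ne_zero 2 hD)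
  have r4 : R 4 = 0 := by
    have : D ^ 2 * R 4 = 0 := by
      rw [hDdef]
      linear_combination -2 * n.1 * n.2 * hv2 + (n.2 * v.1 + v.2 * n.1) * z3 - 2 * v.1 * v.2 * z4
    exact (mul_eq_zero.1 this).resolve_left (pow_ne_zero 2 hD)
  rw [r3, r4, r5] at z1 z2
  have r1 : R 1 = 0 := by
    have : D * R 1 = 0 := by
      rw [hDdef]
      linear_combination n.2 * z1 - v.2 * z2
    exact (mul_eq_zero.1 this).resolve_left hD
  have r2 : R 2 = 0 := by
    have : D * R 2 = 0 := by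
      rw [hDdef]
      linear_combination v.1 * z2 - n.1 * z1
    exact (mul_eq_zero.1 this).resolve_left hD
  have r0 : R 0 = 0 := by
    simp only [quad, r1, r2, r3, r4, r5] at hqp
    linear_combination hqp
  apply hR
  funext i
  fin_cases i
  · exact r0
  · exact r1
  · exact r2
  · exact r3
  · exact r4
  · exact r5

end Pool.Agent.U869.PD
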